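import Mathlib
open Matrix

namespace Pool.Agent.PowerMean

abbrev H := EuclideanSpace ℂ (Fin 2)

noncomputable def T (A : Matrix (Fin 2) (Fin 2) ℂ) : H →L[ℂ] H := Matrix.toEuclideanCLM (n := Fin 2) (𝕜 := ℂ) A

lemma T_mul (A B : Matrix (Fin 2) (Fin 2) ℂ) : T (A * B) = T A * T B := map_mul _ A B
lemma T_add (A B : Matrix (Fin 2) (Fin 2) ℂ) : T (A + B) = T A + T B := map_add _ A B
lemma T_sub (A B : Matrix (Fin 2) (Fin 2) ℂ) : T (A - B) = T A - T B := map_sub _ A B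
lemma T_smul (c : ℂ) (A : Matrix (Fin 2) (Fin 2) ℂ) : T (c • A) = c • T A := map_smul _ c A
lemma T_pow (A : Matrix (Fin 2) (Fin 2) ℂ) (n : ℕ) : T (A ^ n) = T A ^ n := map_pow _ A n
lemma T_star (A : Matrix (Fin 2) (Fin 2) ℂ) : T (star A) = star (T A) := map_star _ A

lemma trace_T (A : Matrix (Fin 2) (Fin 2) ℂ) :
    LinearMap.trace ℂ (EuclideanSpace ℂ (Fin 2)) ((T A : H →L[ℂ] H) : H →ₗ[ℂ] H) = A.trace := by
  unfold T
  rw [Matrix.coe_toEuclideanCLM_eq_toEuclideanLin, Matrix.toEuclideanLin_eq_toLin, Matrix.trace_toLin_eq]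

lemma T_nonneg {A S : Matrix (Fin 2) (Fin 2) ℂ} (h : A = star S * S) : 0 ≤ T A := by
  rw [h, T_mul, T_star]
  exact star_mul_self_nonneg _

/-- power by `p = 4` -/
lemma cfc_pow4 (X : H →L[ℂ] H) (hX : 0 ≤ X) : cfc (fun x : ℝ => x ^ (4 : ℝ)) X = X ^ 4 := by
  have h1 : (fun x : ℝ => x ^ (4 : ℝ)) = (fun x : ℝ => x ^ 4) := by
    ext x
    exact_mod_cast Real.rpow_natCast x 4
  rw [h1]
  exact cfc_pow_id X 4 (IsSelfAdjoint.of_nonneg hX)

/-- fourth root -/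
lemma cfc_root4 (N : H →L[ℂ] H) (hN : 0 ≤ N) : cfc (fun x : ℝ => x ^ (1 / (4 : ℝ))) (N ^ 4) = N := by
  have hs : IsSelfAdjoint N := IsSelfAdjoint.of_nonneg hN
  have hc : Continuous (fun x : ℝ => x ^ (1 / (4 : ℝ))) := by
    apply Real.continuous_rpow_const
    norm_num
  have h1 := cfc_comp_pow (R := ℝ) (fun x : ℝ => x ^ (1 / (4 : ℝ))) 4 N hc.continuousOn hs
  rw [← h1]
  have h2 : (spectrum ℝ N).EqOn (fun x : ℝ => (x ^ 4) ^ (1 / (4 : ℝ))) id := by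
    intro x hx
    have hx0 : 0 ≤ x := spectrum_nonneg_of_nonneg hN hx
    simp only [id]
    rw [← Real.rpow_natCast x 4, ← Real.rpow_mul hx0]
    norm_num
  rw [cfc_congr h2]
  exact cfc_id ℝ N hs

section
variable (a : ℝ)

noncomputable def MX : Matrix (Fin 2) (Fin 2) ℂ := !![(a : ℂ) ^ 4, (a : ℂ) ^ 2 / 16; (a : ℂ) ^ 2 / 16, 1 / 256]
noncomputable def MY : Matrix (Fin 2) (Fin 2) ℂ := !![(a : ℂ) ^ 4, - (a : ℂ) ^ 2 / 16; - (a : ℂ) ^ 2 / 16, 1 / 256]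
noncomputable def MN : Matrix (Fin 2) (Fin 2) ℂ := !![(a : ℂ), 0; 0, 1 / 4]
noncomputable def MS : Matrix (Fin 2) (Fin 2) ℂ := !![((Real.sqrt a : ℝ) : ℂ), 0; 0, ((1 / 2 : ℝ) : ℂ)]

variable {a}

lemma MX_sq (h : a ^ 4 = 255 / 256) : MX a * MX a = MX a := by
  have h' : (a : ℂ) ^ 4 = 255 / 256 := by
    have h0 := congrArg (fun x : ℝ => (x : ℂ)) h
    simpa using h0
  ext i j
  fin_cases i <;> fin_cases j <;> simp [MX, Matrix.mul_apply, Fin.sum_univ_two]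
  · linear_combination ((a : ℂ) ^ 4 - 1 + 1 / 256 + 255/256) * h'
  · linear_combination ((a : ℂ) ^ 2 / 16) * h'
  · linear_combination ((a : ℂ) ^ 2 / 16) * h'
  · linear_combination (1 / 256) * h'

lemma MY_sq (h : a ^ 4 = 255 / 256) : MY a * MY a = MY a := by
  have h' : (a : ℂ) ^ 4 = 255 / 256 := by
    have h0 := congrArg (fun x : ℝ => (x : ℂ)) h
    simpa using h0
  ext i j
  fin_cases i <;> fin_cases j <;> simp [MY, Matrix.mul_apply, Fin.sum_univ_two]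
  · linear_combination ((a : ℂ) ^ 4 - 1 + 1 / 256 + 255/256) * h'
  · linear_combination (-(a : ℂ) ^ 2 / 16) * h'
  · linear_combination (-(a : ℂ) ^ 2 / 16) * h'
  · linear_combination (1 / 256) * h'

lemma MX_star : star (MX a) = MX a := by
  ext i j
  fin_cases i <;> fin_cases j <;> simp [MX, Matrix.star_apply]

lemma MY_star : star (MY a) = MY a := by
  ext i j
  fin_cases i <;> fin_cases j <;> simp [MY, Matrix.star_apply]

lemma MN_eq (ha : 0 ≤ a) : MN a = star (MS a) * MS a := by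
  have h1 : ((Real.sqrt a : ℝ) : ℂ) * ((Real.sqrt a : ℝ) : ℂ) = a := by
    exact_mod_cast congrArg (fun x : ℝ => (x : ℂ)) (Real.mul_self_sqrt ha)
  ext i j
  fin_cases i <;> fin_cases j <;> simp only [MN, MS, Matrix.mul_apply, Fin.sum_univ_two, Matrix.star_apply]
  · simp [h1]
  · simp
  · simp
  · simp [-Complex.ofReal_inv, -one_div, -Complex.ofReal_div, -Complex.ofReal_ofNat, -Complex.ofReal_one, Complex.conj_ofReal, ← Complex.ofReal_mul]
    norm_num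

lemma MN_pow (h : a ^ 4 = 255 / 256) : (MN a) ^ 4 = (1 / 2 : ℂ) • MX a + (1 / 2 : ℂ) • MY a := by
  have h' : (a : ℂ) ^ 4 = 255 / 256 := by
    have h0 := congrArg (fun x : ℝ => (x : ℂ)) h
    simpa using h0
  have : (MN a) ^ 4 = (MN a * MN a) * (MN a * MN a) := by noncomm_ring
  rw [this]
  ext i j
  fin_cases i <;> fin_cases j <;> simp [MN, MX, MY, Matrix.mul_apply, Fin.sum_univ_two]
  · ring
  · ring
  · ring
  · norm_num

end

theorem main :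
    ¬ (∀ (n : ℕ) (X Y : EuclideanSpace ℂ (Fin n) →L[ℂ] EuclideanSpace ℂ (Fin n)) (p : ℝ),
      0 ≤ X → 0 ≤ Y → 2 ≤ p →
      MonotoneOn
        (fun t : ℝ =>
          (LinearMap.trace ℂ (EuclideanSpace ℂ (Fin n))
            (((Y - cfc (fun x : ℝ => x ^ (1 / p))
                ((t : ℂ) • cfc (fun x : ℝ => x ^ p) X
                  + ((1 - t : ℝ) : ℂ) • cfc (fun x : ℝ => x ^ p) Y)) ^ 2 :
                EuclideanSpace ℂ (Fin n) →L[ℂ] EuclideanSpace ℂ (Fin n)) :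
              EuclideanSpace ℂ (Fin n) →ₗ[ℂ] EuclideanSpace ℂ (Fin n))).re)
        (Set.Icc (0 : ℝ) 1)) := by
  intro H
  obtain ⟨a, ha0, ha⟩ : ∃ a : ℝ, 0 ≤ a ∧ a ^ 4 = 255 / 256 := by
    refine ⟨(255 / 256 : ℝ) ^ (1 / (4 : ℝ)), by positivity, ?_⟩
    rw [← Real.rpow_natCast, ← Real.rpow_mul (by norm_num)]
    norm_num
  have hX : 0 ≤ T (MX a) := T_nonneg (S := MX a) (by rw [MX_star, MX_sq ha])
  have hY : 0 ≤ T (MY a) := T_nonneg (S := MY a) (by rw [MY_star, MY_sq ha])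
  have hN : 0 ≤ T (MN a) := T_nonneg (MN_eq ha0)
  have hX4 : T (MX a) ^ 4 = T (MX a) := by
    have h2 : T (MX a) * T (MX a) = T (MX a) := by rw [← T_mul, MX_sq ha]
    rw [pow_succ, pow_succ, pow_succ, pow_one, h2, h2, h2]
  have hY4 : T (MY a) ^ 4 = T (MY a) := by
    have h2 : T (MY a) * T (MY a) = T (MY a) := by rw [← T_mul, MY_sq ha]
    rw [pow_succ, pow_succ, pow_succ, pow_one, h2, h2, h2]
  have h := H 2 (T (MX a)) (T (MY a)) 4 hX hY (by norm_num)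
  have h1 := h (a := 1 / 2) (b := 1) ⟨by norm_num, by norm_num⟩ ⟨by norm_num, by norm_num⟩ (by norm_num)
  simp only [cfc_pow4 _ hX, cfc_pow4 _ hY, hX4, hY4] at h1
  have e1 : (((1 / 2 : ℝ) : ℂ) • T (MX a) + ((1 - 1 / 2 : ℝ) : ℂ) • T (MY a)) = T (MN a) ^ 4 := by
    rw [← T_pow, MN_pow ha, T_add, T_smul, T_smul]
    congr 2 <;> (push_cast; norm_num)
  have e2 : (((1 : ℝ) : ℂ) • T (MX a) + ((1 - 1 : ℝ) : ℂ) • T (MY a)) = T (MX a) ^ 4 := by
    have hz : (0 : ℂ) • T (MY a) = 0 := by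
      ext x i
      simp only [ContinuousLinearMap.smul_apply, ContinuousLinearMap.zero_apply, PiLp.smul_apply,
        PiLp.zero_apply, smul_eq_mul, zero_mul]
    rw [hX4, sub_self, Complex.ofReal_one, Complex.ofReal_zero, one_smul, hz, add_zero]
  rw [e1, e2, cfc_root4 _ hN, cfc_root4 _ hX, ← T_sub, ← T_sub, ← T_pow, ← T_pow, trace_T, trace_T] at h1
  have f1 : ((MY a - MN a) ^ 2).trace = (((a ^ 4 - a) ^ 2 + 2 * (a ^ 2 / 16) ^ 2 + (1 / 256 - 1 / 4) ^ 2 : ℝ) : ℂ) := by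
    rw [sq, Matrix.trace_fin_two]
    simp [MY, MN, Matrix.mul_apply, Fin.sum_univ_two]
    ring
  have f2 : ((MY a - MX a) ^ 2).trace = ((8 * (a ^ 2 / 16) ^ 2 : ℝ) : ℂ) := by
    rw [sq, Matrix.trace_fin_two]
    simp [MY, MX, Matrix.mul_apply, Fin.sum_univ_two]
    ring
  rw [f1, f2, Complex.ofReal_re, Complex.ofReal_re] at h1
  nlinarith [sq_nonneg (a ^ 4 - a)]

end Pool.Agent.PowerMean
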